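import Pool.Agent.H6.FC.Targets

/-!
# Row S1A of cfp_modules: the action on a simple normal subgroup
-/

set_option autoImplicit false

open scoped Classical ComplexConjugate

namespace Pool.Agent.H67.FC

open FI

/-- the centre of a simple non-abelian group is trivial -/
theorem center_triv {S : Type} [Group S] (hs : IsSimpleGroup S) (hn : ∃ a b : S, a * b ≠ b * a)
    (z : S) (hz : ∀ s : S, z * s = s * z) : z = 1 := by
  have h1 : Subgroup.center S = ⊥ ∨ Subgroup.center S = ⊤ :=
    hs.eq_bot_or_eq_top_of_normal _ inferInstance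
  have hzc : z ∈ Subgroup.center S := Subgroup.mem_center_iff.2 fun g => (hz g).symm
  rcases h1 with h1 | h1
  · rw [h1, Subgroup.mem_bot] at hzc
    exact hzc
  · exfalso
    obtain ⟨a, b, hab⟩ := hn
    have h2 : b ∈ Subgroup.center S := by rw [h1]; exact Subgroup.mem_top b
    exact hab (Subgroup.mem_center_iff.1 h2 a)

theorem simple_of {S T : Type} [Group S] [Group T] (hs : IsSimpleGroup S) (e : T ≃* S) :
    IsSimpleGroup T := by
  have := hs
  exact e.isSimpleGroup

theorem pf_S1A (_SOL : T_SOL) (_ALS : T_ALS) : T_S1A := by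
  intro e Y S _ _ _ _ hOne L hL hLS
  obtain ⟨φ⟩ := hLS
  have := hL
  have hLsim : IsSimpleGroup L := simple_of hOne.sim φ
  have hLnab : ∃ a b : L, a * b ≠ b * a := by
    obtain ⟨a, b, hab⟩ := hOne.nab
    refine ⟨φ.symm a, φ.symm b, fun h => hab ?_⟩
    have := congrArg φ h
    simpa using this
  let c : Y →* MulAut L := MulAut.conjNormal
  have hc : ∀ (y : Y) (l : L), ((c y l : L) : Y) = y * l * y⁻¹ := fun y l =>
    MulAut.conjNormal_apply y l
  let γ : Y →* c.range := c.rangeRestrict
  have hγ : ∀ y, γ y = 1 ↔ ∀ l ∈ L, y * l * y⁻¹ = l := by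
    intro y
    constructor
    · intro h l hl
      have h1 : c y = 1 := congrArg Subtype.val h
      have h2 := hc y ⟨l, hl⟩
      rw [h1] at h2
      exact h2.symm
    · intro h
      apply Subtype.ext
      show c y = 1
      ext l
      rw [hc]
      exact h l l.2
  have hsur : Function.Surjective γ := c.rangeRestrict_surjective
  have hinf : ∀ y ∈ L, γ y = 1 → y = 1 := by
    intro y hy h
    have h1 := (hγ y).1 h
    have h2 := center_triv hLsim hLnab ⟨y, hy⟩ (fun l => by
      apply Subtype.ext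
      have h3 := h1 l l.2
      show y * l = l * y
      rw [mul_inv_eq_iff_eq_mul] at h3
      exact h3)
    exact congrArg Subtype.val h2
  have hfinA : Finite c.range := inferInstance
  let S' : Subgroup c.range := L.map γ
  have hS'n : S'.Normal := Subgroup.Normal.map hL γ hsur
  let f : L →* S' := (γ.comp L.subtype).codRestrict S' (fun l => ⟨l, l.2, rfl⟩)
  have hfb : Function.Bijective f := by
    constructor
    · rw [injective_iff_map_eq_one]
      intro l hl
      have h1 : γ l = 1 := congrArg Subtype.val hl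
      exact Subtype.ext (hinf l l.2 h1)
    · rintro ⟨a, l, hl, rfl⟩
      exact ⟨⟨l, hl⟩, rfl⟩
  let ψ : S' ≃* S := (MulEquiv.ofBijective f hfb).symm.trans φ
  have hcen : ∀ a : c.range, (∀ s ∈ S', a * s = s * a) → a = 1 := by
    intro a ha
    obtain ⟨y, rfl⟩ := hsur a
    rw [hγ]
    intro l hl
    have h1 := ha (γ l) ⟨l, hl, rfl⟩
    have h2 : γ (y * l * y⁻¹ * l⁻¹) = 1 := by
      rw [map_mul, map_mul, map_mul, h1, map_inv, map_inv]
      group
    have h3 := hinf _ (L.mul_mem (hL.conj_mem l hl y) (L.inv_mem hl)) h2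
    exact mul_inv_eq_one.1 h3
  have hS's : IsSimpleGroup S' := simple_of hOne.sim ψ
  have hS'nab : ∃ a b : S', a * b ≠ b * a := by
    obtain ⟨a, b, hab⟩ := hOne.nab
    refine ⟨ψ.symm a, ψ.symm b, fun h => hab ?_⟩
    have := congrArg ψ h
    simpa using this
  obtain ⟨hidx, hch⟩ := hOne.alm c.range S' hS'n hcen ⟨ψ⟩
  have hsim : ∀ N : Subgroup c.range, N ≤ S' → (∀ s ∈ S', ∀ n ∈ N, s * n * s⁻¹ ∈ N) →
      N = ⊥ ∨ N = S' := by
    intro N hN hinv
    have hNn : (N.subgroupOf S').Normal := ⟨fun n hn s => by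
      rw [Subgroup.mem_subgroupOf] at hn ⊢
      exact hinv s s.2 n hn⟩
    rcases hS's.eq_bot_or_eq_top_of_normal _ hNn with h | h
    · left
      rw [eq_bot_iff]
      intro n hn
      have h1 : (⟨n, hN hn⟩ : S') ∈ N.subgroupOf S' := Subgroup.mem_subgroupOf.2 hn
      rw [h, Subgroup.mem_bot] at h1
      exact Subgroup.mem_bot.2 (congrArg Subtype.val h1)
    · right
      refine le_antisymm hN fun s hs => ?_
      have h1 : (⟨s, hs⟩ : S') ∈ N.subgroupOf S' := by rw [h]; exact Subgroup.mem_top _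
      exact Subgroup.mem_subgroupOf.1 h1
  have hcS' : ∀ a : S', (∀ s ∈ (⊤ : Subgroup S'), a * s = s * a) → a = 1 := fun a ha =>
    center_triv hS's hS'nab a fun s => ha s (Subgroup.mem_top s)
  refine ⟨c.range, inferInstance, hfinA, S', γ, hsur, ?_, rfl, ?_, hch, ?_, ?_⟩
  · rw [eq_bot_iff]
    intro y hy
    exact Subgroup.mem_bot.2 (hinf y hy.1 hy.2)
  · refine ⟨hS'n, ?_, hsim, ?_, hidx⟩
    · intro N hN hNb
      rcases hsim (N ⊓ S') inf_le_right (fun s hs n hn =>
        ⟨hN.conj_mem n hn.1 s, S'.mul_mem (S'.mul_mem hs hn.2) (S'.inv_mem hs)⟩) with h | h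
      · exfalso
        apply hNb
        rw [eq_bot_iff]
        intro n hn
        refine Subgroup.mem_bot.2 (hcen n fun s hs => ?_)
        have h1 : n * s * n⁻¹ * s⁻¹ ∈ N ⊓ S' := by
          refine ⟨?_, S'.mul_mem (hS'n.conj_mem s hs n) (S'.inv_mem hs)⟩
          have h2 : n * s * n⁻¹ * s⁻¹ = n * (s * n⁻¹ * s⁻¹) := by group
          rw [h2]
          exact N.mul_mem hn (hN.conj_mem _ (N.inv_mem hn) s)
        rw [h, Subgroup.mem_bot] at h1
        have h3 := mul_inv_eq_one.1 h1
        exact mul_inv_eq_iff_eq_mul.1 h3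
      · rw [← h]
        exact inf_le_left
    · obtain ⟨a, b, hab⟩ := hS'nab
      exact ⟨a, a.2, b, b.2, fun h => hab (Subtype.ext h)⟩
  · refine ⟨inferInstance, ?_, ?_, ?_, Or.inl Subgroup.index_top⟩
    · intro N hN hNb
      rcases hS's.eq_bot_or_eq_top_of_normal N hN with h | h
      · exact absurd h hNb
      · rw [h]
    · intro N _ hinv
      exact hS's.eq_bot_or_eq_top_of_normal N ⟨fun n hn s => hinv s (Subgroup.mem_top s) n hn⟩
    · obtain ⟨a, b, hab⟩ := hS'nab
      exact ⟨a, Subgroup.mem_top a, b, Subgroup.mem_top b, hab⟩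
  · exact (hOne.alm S' ⊤ inferInstance hcS' ⟨Subgroup.topEquiv.trans ψ⟩).2

end Pool.Agent.H67.FC
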